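import Mathlib
import Pool.Agent.H27.PPCF

open Finset MeasureTheory Filter Topology

set_option maxHeartbeats 4000000

namespace Pool.Agent.Results.MP_b61c36_nt.Exceptional

/-- distance to the nearest integer -/
noncomputable def distInt (x : ℝ) : ℝ := |x - round x|

/-- Poissonian pair correlations of the sequence `x 0, x 1, ...` in `[0,1)`: for every `s > 0`,
`(1/N) #{(k,l) : k, l < N, k ≠ l, ‖x_k - x_l‖ < s/N} → 2 s`. -/
def PPC (x : ℕ → ℝ) : Prop := ∀ s : ℝ, 0 < s →
  Tendsto (fun N : ℕ => (Nat.card {p : ℕ × ℕ // p.1 < N ∧ p.2 < N ∧ p.1 ≠ p.2 ∧ distInt (x p.1 - x p.2) < s / N} : ℝ) / N)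
    atTop (𝓝 (2 * s))

open Pool.Agent.H27.PPC

lemma dist_fract (x y : ℝ) : distInt (Int.fract x - Int.fract y) = nd (x - y) := by
  have e : Int.fract x - Int.fract y = (x - y) + ((⌊y⌋ - ⌊x⌋ : ℤ) : ℝ) := by
    unfold Int.fract; push_cast; ring
  rw [e]
  exact nd_add_int (x - y) (⌊y⌋ - ⌊x⌋)

lemma card_eq_cnt (a : ℕ → ℤ) (α ρ : ℝ) (N : ℕ) :
    (Nat.card {p : ℕ × ℕ // p.1 < N ∧ p.2 < N ∧ p.1 ≠ p.2 ∧ distInt (Int.fract ((a p.1 : ℝ) * α) - Int.fract ((a p.2 : ℝ) * α)) < ρ} : ℝ) = cnt α a N ρ := by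
  classical
  have h1 : ((range N ×ˢ range N).filter (fun p => p.1 ≠ p.2 ∧ nd (((a p.1 - a p.2 : ℤ) : ℝ) * α) < ρ)).card =
      Nat.card {p : ℕ × ℕ // p.1 < N ∧ p.2 < N ∧ p.1 ≠ p.2 ∧ distInt (Int.fract ((a p.1 : ℝ) * α) - Int.fract ((a p.2 : ℝ) * α)) < ρ} := by
    rw [← Nat.card_eq_finsetCard]
    refine Nat.card_congr (Equiv.subtypeEquivRight ?_)
    intro p
    rw [mem_filter, mem_product, mem_range, mem_range, dist_fract, sub_mul_cast]
    tauto
  rw [← h1]
  unfold cnt Ip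
  rw [card_filter]
  push_cast
  rw [sum_product]

theorem result :
    (∃ a : ℕ → ℤ, StrictMono a ∧ (∀ᵐ α : ℝ ∂volume, ¬ PPC (fun n => Int.fract ((a n : ℝ) * α))) ∧
      ∃ α₀ : ℝ, PPC (fun n => Int.fract ((a n : ℝ) * α₀))) ∧
    (∀ α₀ : ℝ, Irrational α₀ → ∃ a : ℕ → ℤ, StrictMono a ∧ (∀ᵐ α : ℝ ∂volume, ¬ PPC (fun n => Int.fract ((a n : ℝ) * α))) ∧
      PPC (fun n => Int.fract ((a n : ℝ) * α₀))) := by
  have key : ∀ α₀ : ℝ, Irrational α₀ → ∃ a : ℕ → ℤ, StrictMono a ∧ (∀ᵐ α : ℝ ∂volume, ¬ PPC (fun n => Int.fract ((a n : ℝ) * α))) ∧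
      PPC (fun n => Int.fract ((a n : ℝ) * α₀)) := by
    intro α₀ hα
    obtain ⟨A, mm, D, r, Ev, K0, hA, hK0, hrm, hru, hmK, hmlt, hD0, hDd, hcnt, hfr, hE⟩ := main_seq hα
    have hmm : StrictMono mm := strictMono_nat_of_lt_succ hmlt
    refine ⟨A, hA, ?_, ?_⟩
    · -- failure almost everywhere
      have hlim := tree D hDd hD0 Ev (1 / 384) (by norm_num) (by norm_num) K0 hK0 hfr
      have hcore : ∀ᵐ α : ℝ ∂volume, 0 ≤ α → α < 1 → ¬ PPC (fun n => Int.fract ((A n : ℝ) * α)) := by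
        filter_upwards [hlim] with α hα' h0 h1 hP
        have hev := hα' h0 h1
        have ht := hP (1 / 16) (by norm_num)
        rw [Metric.tendsto_atTop] at ht
        obtain ⟨N0, hN0⟩ := ht (1 / 16) (by norm_num)
        obtain ⟨i, hi, hEi⟩ := hev N0
        have h2 := hE i α h0 hEi
        have h3 : N0 ≤ mm (i+1) := by have := hmK (i+1); omega
        have h4 := hN0 (mm (i+1)) h3
        have h5 := card_eq_cnt A α (1 / 16 / mm (i+1)) (mm (i+1))
        rw [h5, Real.dist_eq] at h4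
        have hpos : (0:ℝ) < mm (i+1) := by
          have := hmK (i+1)
          exact_mod_cast (by omega : 0 < mm (i+1))
        have h6 := (abs_lt.1 h4).2
        have h7 : 7 / 32 ≤ cnt α A (mm (i+1)) (1 / 16 / mm (i+1)) / mm (i+1) := by
          rw [le_div_iff₀ hpos]; exact h2
        linarith
      have hshift : ∀ z : ℤ, ∀ᵐ α : ℝ ∂volume, 0 ≤ α + z → α + z < 1 → ¬ PPC (fun n => Int.fract ((A n : ℝ) * (α + z))) := by
        intro z
        exact (measurePreserving_add_right volume (z:ℝ)).quasiMeasurePreserving.ae hcore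
      have hall := ae_all_iff.2 hshift
      filter_upwards [hall] with α hα'
      have h1 := hα' (-⌊α⌋)
      have h2 : 0 ≤ α + ((-⌊α⌋ : ℤ) : ℝ) := by push_cast; have := Int.floor_le α; linarith
      have h3 : α + ((-⌊α⌋ : ℤ) : ℝ) < 1 := by push_cast; have := Int.lt_floor_add_one α; linarith
      have h4 := h1 h2 h3
      have h5 : (fun n => Int.fract ((A n : ℝ) * (α + ((-⌊α⌋ : ℤ) : ℝ)))) = (fun n => Int.fract ((A n : ℝ) * α)) := by
        funext n
        have : (A n : ℝ) * (α + ((-⌊α⌋ : ℤ) : ℝ)) = (A n : ℝ) * α + ((A n * (-⌊α⌋) : ℤ) : ℝ) := by push_cast; ring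
        rw [this, Int.fract_add_intCast]
      rw [h5] at h4
      exact h4
    · -- Poissonian pair correlations at α₀
      intro s hs
      rw [Metric.tendsto_atTop]
      intro ε hε
      obtain ⟨i1, hi1⟩ := es_lim r hrm hru ε hε
      obtain ⟨R, hR⟩ := exists_nat_ge s
      obtain ⟨i2, hi2⟩ := hru R
      refine ⟨mm (max i1 i2), ?_⟩
      intro N hN
      -- find the block
      obtain ⟨i, hi, hin, hin'⟩ : ∃ i, max i1 i2 ≤ i ∧ mm i ≤ N ∧ N ≤ mm (i+1) := by
        have hex : ∃ j, N < mm j := ⟨N + 1, by have := hmK (N + 1); omega⟩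
        classical
        set j := Nat.find hex with hj
        have hj1 : N < mm j := Nat.find_spec hex
        have hjpos : max i1 i2 < j := by
          by_contra hcon
          push Not at hcon
          have := hmm.monotone hcon
          omega
        obtain ⟨i, hi⟩ : ∃ i, j = i + 1 := ⟨j - 1, by omega⟩
        refine ⟨i, by omega, ?_, ?_⟩
        · have := Nat.find_min hex (m := i) (by omega)
          omega
        · rw [← hi]; exact hj1.le
      have hmi : (0:ℝ) < mm i := by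
        have := hmK i
        exact_mod_cast (by omega : 0 < mm i)
      have hNR : (mm i : ℝ) ≤ N := by exact_mod_cast hin
      have hN0 : (0:ℝ) < N := by linarith
      have hRr : (R:ℝ) ≤ r i := by exact_mod_cast hi2.trans (hrm (le_trans (le_max_right _ _) hi))
      have hρ : s / N ≤ ((r i : ℝ) + 1) / mm i := by
        rw [div_le_div_iff₀ hN0 hmi]
        have h1 : s * mm i ≤ s * N := mul_le_mul_of_nonneg_left hNR hs.le
        have h2 : s * N ≤ ((r i : ℝ) + 1) * N := mul_le_mul_of_nonneg_right (by linarith) hN0.le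
        linarith
      have h1 := hcnt i N hin hin' (s / N) (by positivity) hρ
      have h2 := hi1 i (le_trans (le_max_left _ _) hi)
      have h5 := card_eq_cnt A α₀ (s / N) N
      rw [h5, Real.dist_eq]
      have e1 : 2 * (s / N) * (N:ℝ) ^ 2 = (2 * s) * N := by field_simp
      rw [e1] at h1
      have e2 : cnt α₀ A N (s / N) / N - 2 * s = (cnt α₀ A N (s / N) - (2 * s) * N) / N := by field_simp
      rw [e2, abs_div, abs_of_pos hN0, div_lt_iff₀ hN0]
      have h0 : 0 ≤ es r i + 1 / ((r i : ℝ) + 1) := add_nonneg (es_nonneg r i) (by positivity)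
      calc _ ≤ (es r i + 1 / ((r i:ℝ) + 1)) * mm i := h1
        _ ≤ (es r i + 1 / ((r i:ℝ) + 1)) * N := mul_le_mul_of_nonneg_left hNR h0
        _ < ε * N := mul_lt_mul_of_pos_right h2 hN0
  refine ⟨?_, key⟩
  obtain ⟨a, h1, h2, h3⟩ := key (Real.sqrt 2) irrational_sqrt_two
  exact ⟨a, h1, h2, _, h3⟩

end Pool.Agent.Results.MP_b61c36_nt.Exceptional
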